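import Pool.Agent.V11251.ACFO.Dens

set_option autoImplicit false
set_option linter.unusedVariables false

open FirstOrder

universe u

namespace Pool.Agent.Results.MP_711d73_lc.NotInpMinimal

open Pool.Agent.V11251.ACFO

/-- The structure `N` contains an inp-pattern of depth `2` in a single variable `x`: formulas
`φ₁(x,y₁)`, `φ₂(x,y₂)`, numbers `k₁`, `k₂` and parameters `b₁ j`, `b₂ j` (`j < ω`) in `N` such that
the `i`-th row is `k_i`-inconsistent and any two formulas of different rows are consistent. -/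
def HasInpPattern2 (N : Type u) [Lc.Structure N] : Prop :=
  ∃ (n₁ n₂ : ℕ) (φ₁ : Lc.Formula (Unit ⊕ Fin n₁)) (φ₂ : Lc.Formula (Unit ⊕ Fin n₂)) (k₁ k₂ : ℕ)
    (b₁ : ℕ → Fin n₁ → N) (b₂ : ℕ → Fin n₂ → N),
    (∀ s : Finset ℕ, s.card = k₁ →
      ¬ ∃ x : N, ∀ j ∈ s, φ₁.Realize (Sum.elim (fun _ => x) (b₁ j))) ∧
    (∀ s : Finset ℕ, s.card = k₂ →
      ¬ ∃ x : N, ∀ j ∈ s, φ₂.Realize (Sum.elim (fun _ => x) (b₂ j))) ∧
    ∀ j₁ j₂ : ℕ, ∃ x : N, φ₁.Realize (Sum.elim (fun _ => x) (b₁ j₁)) ∧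
      φ₂.Realize (Sum.elim (fun _ => x) (b₂ j₂))

/-- The complete theory of the structure `M` is inp-minimal: no model of it contains an
inp-pattern of depth `2` in a single variable. -/
def TheoryInpMinimal (M : Type u) [Lc.Structure M] : Prop :=
  ∀ (N : Type u) [Lc.Structure N], N ⊨ Lc.completeTheory M → ¬ HasInpPattern2 N

def ltC : Lc.Relations 2 := MRel.lt
def addC : Lc.Functions 2 := CFun.add
def oneC : Lc.Constants := CFun.one

/-- `y₁ < x < y₂` -/
def phi1 : Lc.Formula (Unit ⊕ Fin 2) :=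
  ltC.formula₂ (Language.Term.var (Sum.inr 0)) (Language.Term.var (Sum.inl ())) ⊓
    ltC.formula₂ (Language.Term.var (Sum.inl ())) (Language.Term.var (Sum.inr 1))

/-- `y₁ < x + 1 < y₂` -/
def phi2 : Lc.Formula (Unit ⊕ Fin 2) :=
  ltC.formula₂ (Language.Term.var (Sum.inr 0))
      (addC.apply₂ (Language.Term.var (Sum.inl ())) oneC.term) ⊓
    ltC.formula₂ (addC.apply₂ (Language.Term.var (Sum.inl ())) oneC.term)
      (Language.Term.var (Sum.inr 1))

section

variable {F : Type u} [Field F] (D : Data Fˣ)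

theorem phi1_realize (v : Unit ⊕ Fin 2 → F) :
    (@Language.Formula.Realize Lc F (cStr F D) _ phi1 v) ↔
      (∃ a b : Fˣ, (a : F) = v (Sum.inr 0) ∧ (b : F) = v (Sum.inl ()) ∧ D.lt a b) ∧
      (∃ a b : Fˣ, (a : F) = v (Sum.inl ()) ∧ (b : F) = v (Sum.inr 1) ∧ D.lt a b) := by
  letI := cStr F D
  unfold phi1
  rw [Language.Formula.realize_inf, Language.Formula.realize_rel₂, Language.Formula.realize_rel₂]
  rfl

theorem phi2_realize (v : Unit ⊕ Fin 2 → F) :
    (@Language.Formula.Realize Lc F (cStr F D) _ phi2 v) ↔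
      (∃ a b : Fˣ, (a : F) = v (Sum.inr 0) ∧ (b : F) = v (Sum.inl ()) + 1 ∧ D.lt a b) ∧
      (∃ a b : Fˣ, (a : F) = v (Sum.inl ()) + 1 ∧ (b : F) = v (Sum.inr 1) ∧ D.lt a b) := by
  letI := cStr F D
  unfold phi2
  rw [Language.Formula.realize_inf, Language.Formula.realize_rel₂, Language.Formula.realize_rel₂,
    Language.Term.realize_functions_apply₂]
  rfl

end

theorem exists_seq {G : Type u} (lt : G → G → Prop) (a : G) (h : ∀ a, ∃ b, lt a b) :
    ∃ c : ℕ → G, ∀ n, lt (c n) (c (n + 1)) := by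
  choose f hf using h
  refine ⟨fun n => f^[n] a, fun n => ?_⟩
  show lt (f^[n] a) (f^[n + 1] a)
  rw [Function.iterate_succ_apply']
  exact hf _

theorem two_points {F : Type u} [Field F] [Infinite F] (D : Data Fˣ) (hgen : IsGeneric F D)
    (hD : DLO D.lt) (a b a' b' : Fˣ) (h : D.lt a b) (h' : D.lt a' b') :
    ∃ x : F, (∃ y : Fˣ, (y : F) = x ∧ D.lt a y ∧ D.lt y b) ∧
      (∃ y : Fˣ, (y : F) = x + 1 ∧ D.lt a' y ∧ D.lt y b') := by
  obtain ⟨w, hw⟩ := density (d := 1) (N := 2) (e := fun _ => 0)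
    (p := ![MvPolynomial.X 0, MvPolynomial.X 0 + 1]) D hgen hD
    (by intro i; rw [Subsingleton.elim i 0]; rfl)
    (by
      intro i
      fin_cases i
      · exact MvPolynomial.X_ne_zero _
      · intro hh
        have := congrArg (MvPolynomial.eval (0 : Fin 1 → F)) hh
        simp at this)
    (by
      intro i
      fin_cases i
      · refine ⟨0, by simp, ?_⟩
        intro j hj
        fin_cases j
        · exact absurd rfl hj
        · simp
      · refine ⟨fun _ => -1, by simp, ?_⟩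
        intro j hj
        fin_cases j
        · simp
        · exact absurd rfl hj)
    ![a, a'] ![b, b'] (by intro i; fin_cases i <;> simpa)
  refine ⟨w 0, ?_, ?_⟩
  · obtain ⟨x, hx, h1, h2⟩ := hw 0
    exact ⟨x, by simpa using hx, by simpa using h1, by simpa using h2⟩
  · obtain ⟨x, hx, h1, h2⟩ := hw 1
    exact ⟨x, by simpa using hx, by simpa using h1, by simpa using h2⟩

/-- no point lies in two different intervals of an increasing sequence -/
theorem disjoint_intervals {G : Type u} {lt : G → G → Prop} (h : DLO lt) (c : ℕ → G)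
    (hc : ∀ n, lt (c n) (c (n + 1))) {i j : ℕ} (hij : i ≠ j) (x : G)
    (h1 : lt (c i) x ∧ lt x (c (i + 1))) (h2 : lt (c j) x ∧ lt x (c (j + 1))) : False := by
  have mono : ∀ m n, m < n → lt (c m) (c n) := by
    intro m n hmn
    induction n with
    | zero => omega
    | succ n ih =>
      rcases Nat.lt_or_ge m n with hlt | hge
      · exact h.trans _ _ _ (ih hlt) (hc n)
      · have : m = n := by omega
        subst this
        exact hc m
  have aux : ∀ i j : ℕ, i < j → (lt (c i) x ∧ lt x (c (i + 1))) →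
      (lt (c j) x ∧ lt x (c (j + 1))) → False := by
    intro i j hij h1 h2
    rcases Nat.lt_or_ge (i + 1) j with hlt | hge
    · exact h.irr x (h.trans _ _ _ h1.2 (h.trans _ _ _ (mono _ _ hlt) h2.1))
    · have : j = i + 1 := by omega
      subst this
      exact h.irr x (h.trans _ _ _ h1.2 h2.1)
  rcases Nat.lt_or_ge i j with hlt | hge
  · exact aux i j hlt h1 h2
  · exact aux j i (by omega) h2 h1

theorem hasInpPattern {F : Type u} [Field F] (D : Data Fˣ) (h : IsACFO F D) :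
    @HasInpPattern2 F (cStr F D) := by
  classical
  obtain ⟨⟨p, hp, hchar, hac, hmod⟩, hgen⟩ := h
  haveI := hac
  haveI : Infinite F := IsAlgClosed.instInfinite
  have hD : DLO D.lt := dlo_of_model D hp hmod
  obtain ⟨c, hc⟩ := exists_seq D.lt 1 hD.nomax
  refine ⟨2, 2, phi1, phi2, 2, 2, fun j => ![(c j : F), (c (j + 1) : F)],
    fun j => ![(c j : F), (c (j + 1) : F)], ?_, ?_, ?_⟩
  · rintro s hs ⟨x, hx⟩
    obtain ⟨i, j, hij, rfl⟩ := Finset.card_eq_two.1 hs
    have h1 := (phi1_realize D _).1 (hx i (by simp))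
    have h2 := (phi1_realize D _).1 (hx j (by simp))
    simp only [Sum.elim_inl, Sum.elim_inr, Matrix.cons_val_zero, Matrix.cons_val_one,
      Units.val_inj] at h1 h2
    obtain ⟨⟨a1, b1, ha1, hb1, l1⟩, ⟨a2, b2, ha2, hb2, l2⟩⟩ := h1
    obtain ⟨⟨a3, b3, ha3, hb3, l3⟩, ⟨a4, b4, ha4, hb4, l4⟩⟩ := h2
    have e1 : b1 = a2 := Units.ext (by rw [hb1, ha2])
    have e2 : b1 = b3 := Units.ext (by rw [hb1, hb3])
    have e3 : b1 = a4 := Units.ext (by rw [hb1, ha4])
    subst e1 e2 e3 ha1 hb2 ha3 hb4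
    exact disjoint_intervals hD c hc hij b1 ⟨l1, l2⟩ ⟨l3, l4⟩
  · rintro s hs ⟨x, hx⟩
    obtain ⟨i, j, hij, rfl⟩ := Finset.card_eq_two.1 hs
    have h1 := (phi2_realize D _).1 (hx i (by simp))
    have h2 := (phi2_realize D _).1 (hx j (by simp))
    simp only [Sum.elim_inl, Sum.elim_inr, Matrix.cons_val_zero, Matrix.cons_val_one,
      Units.val_inj] at h1 h2
    obtain ⟨⟨a1, b1, ha1, hb1, l1⟩, ⟨a2, b2, ha2, hb2, l2⟩⟩ := h1
    obtain ⟨⟨a3, b3, ha3, hb3, l3⟩, ⟨a4, b4, ha4, hb4, l4⟩⟩ := h2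
    have e1 : b1 = a2 := Units.ext (by rw [hb1, ha2])
    have e2 : b1 = b3 := Units.ext (by rw [hb1, hb3])
    have e3 : b1 = a4 := Units.ext (by rw [hb1, ha4])
    subst e1 e2 e3 ha1 hb2 ha3 hb4
    exact disjoint_intervals hD c hc hij b1 ⟨l1, l2⟩ ⟨l3, l4⟩
  · intro i j
    obtain ⟨x, ⟨y, hy, h1, h2⟩, ⟨z, hz, h3, h4⟩⟩ :=
      two_points D hgen hD (c i) (c (i + 1)) (c j) (c (j + 1)) (hc i) (hc j)
    refine ⟨x, (phi1_realize D _).2 ⟨⟨c i, y, ?_, ?_, h1⟩, ⟨y, c (i + 1), ?_, ?_, h2⟩⟩,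
      (phi2_realize D _).2 ⟨⟨c j, z, ?_, ?_, h3⟩, ⟨z, c (j + 1), ?_, ?_, h4⟩⟩⟩ <;>
      simp [hy, hz]

/-- For every model of `ACFO`, the complete theory is not inp-minimal; indeed the model itself
contains an inp-pattern of depth `2` in one variable. -/
theorem result (F : Type u) [Field F] (D : Data Fˣ) (h : IsACFO F D) :
    @HasInpPattern2 F (cStr F D) ∧ ¬ @TheoryInpMinimal F (cStr F D) := by
  letI := cStr F D
  refine ⟨hasInpPattern D h, fun hmin => hmin F ?_ (hasInpPattern D h)⟩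
  exact ⟨fun φ hφ => Language.mem_completeTheory.1 hφ⟩

end Pool.Agent.Results.MP_711d73_lc.NotInpMinimal
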